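import Mathlib
import Pool.Agent.Results.MP_711e27_co.DisjointCycles

set_option autoImplicit false

/-!
Few disjoint cycles do not give a linear bound on `f(H)`, in a form which is uniform in the number
of disjoint cycles: for all `s ≥ 2` and all `n ≥ 8 s log s` there is a planar graph `H` on `n`
vertices with at most `s` pairwise disjoint cycles and `f(H) > n log s / 1000`. Hence, for every
`d > 0` and all large `n`, some planar graph `H` on `n` vertices with `ν(H) ≤ d n / log n` has
`f(H) > n log n / 2000`: the bound `f(H) ≤ c n` fails by the factor `log n`.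
-/

namespace Pool.Agent.Results.MP_711e27_co.FullLogLoss

open Pool.Agent.TH507.Host Filter
open Pool.Agent.Results.MP_711e27_co.DisjointCycles

lemma four_le_log : 4 ≤ Real.log 119 := by
  rw [Real.le_log_iff_exp_le (by norm_num)]
  have h1 : Real.exp 1 ≤ 2.7182818286 := Real.exp_one_lt_d9.le
  calc Real.exp 4 = Real.exp 1 ^ 4 := by rw [← Real.exp_nat_mul]; norm_num
    _ ≤ 2.7182818286 ^ 4 := pow_le_pow_left₀ (Real.exp_pos 1).le h1 4
    _ ≤ 119 := by norm_num

/-- the uniform form -/
theorem uniform (s n : ℕ) (hs2 : 2 ≤ s) (hn : 8 * (s : ℝ) * Real.log s ≤ n) :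
    ∃ H : SimpleGraph (Fin n), Planar H ∧ nu H ≤ s ∧
      ∃ (N : ℕ) (G : SimpleGraph (Fin N)), ¬ IsMinor H G ∧
        (1 / 1000) * (n : ℝ) * Real.log s < tw G := by
  have hs : 1 ≤ s := by omega
  have hs2R : (2 : ℝ) ≤ s := by exact_mod_cast hs2
  have hs0 : (0 : ℝ) < s := by linarith
  have hlog2 := Real.log_two_gt_d9
  have hlogs : Real.log 2 ≤ Real.log s := Real.log_le_log (by norm_num) hs2R
  have key : ∀ k : ℕ, s < (119 ^ 8) ^ k → Real.log s ≤ 40 * k := by
    intro k hk
    have h1 : (s : ℝ) ≤ ((119 : ℝ) ^ 8) ^ k := by exact_mod_cast hk.le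
    have h2 := Real.log_le_log hs0 h1
    rw [Real.log_pow, Real.log_pow] at h2
    have h3 := log_119
    have h4 : (0 : ℝ) ≤ k := Nat.cast_nonneg k
    push_cast at h2
    nlinarith
  have key2 : ∀ k : ℕ, (119 ^ 8) ^ k ≤ s → 32 * (k : ℝ) ≤ Real.log s := by
    intro k hk
    have h1 : ((119 : ℝ) ^ 8) ^ k ≤ s := by exact_mod_cast hk
    have h2 := Real.log_le_log (by positivity) h1
    rw [Real.log_pow, Real.log_pow] at h2
    have h3 := four_le_log
    have h4 : (0 : ℝ) ≤ k := Nat.cast_nonneg k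
    push_cast at h2
    nlinarith
  by_cases hsmall : s < (119 ^ 8) ^ 2
  · have hn10 : (10 : ℝ) < n := by
      have : (10 : ℝ) < 8 * s * Real.log s := by nlinarith
      linarith
    have hn10' : 10 ≤ n := by
      have : 10 < n := by exact_mod_cast hn10
      omega
    obtain ⟨H, h1, h2, N, G, h3, h4⟩ := exceeds_trivial n (by omega)
    refine ⟨H, h1, h2.trans (Nat.zero_le _), N, G, h3, ?_⟩
    have h5 := key 2 hsmall
    have h6 : (n : ℝ) < 4 * (tw G + 1) + 1 := by exact_mod_cast h4
    push_cast at h5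
    have h8 : (n : ℝ) * Real.log s ≤ n * 80 := by
      apply mul_le_mul_of_nonneg_left _ (by linarith)
      linarith
    nlinarith
  · push Not at hsmall
    have h64 := key2 2 hsmall
    push_cast at h64
    set q := s / 20944 with hq
    have hq1 : 119 ^ 8 ≤ q := by
      rw [hq, Nat.le_div_iff_mul_le (by norm_num)]
      refine le_trans ?_ hsmall
      norm_num
    set c := Nat.log (119 ^ 8) q with hc
    have hq0 : q ≠ 0 := by
      intro h
      rw [h] at hq1
      norm_num at hq1
    have hc1 : 1 ≤ c := by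
      rw [hc]
      exact Nat.log_pos (by norm_num) hq1
    have h1 : (119 ^ 8) ^ c ≤ q := Nat.pow_log_le_self _ hq0
    have h2 : q < (119 ^ 8) ^ (c + 1) := Nat.lt_pow_succ_log_self (by norm_num) q
    have h3 : 176 * 119 ^ (8 * c + 1) ≤ s := by
      have e1 : q * 20944 ≤ s := Nat.div_mul_le_self _ _
      calc 176 * 119 ^ (8 * c + 1) = (119 ^ 8) ^ c * 20944 := by
            rw [pow_succ, pow_mul]; ring
        _ ≤ q * 20944 := Nat.mul_le_mul_right _ h1
        _ ≤ s := e1
    have h4 : s < (119 ^ 8) ^ (c + 2) := by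
      have e1 : s < (q + 1) * 20944 := by
        have := Nat.lt_div_mul_add (a := s) (b := 20944) (by norm_num)
        rw [← hq] at this
        omega
      calc s < (q + 1) * 20944 := e1
        _ ≤ (119 ^ 8) ^ (c + 1) * 119 ^ 8 := Nat.mul_le_mul h2 (by norm_num)
        _ = (119 ^ 8) ^ (c + 2) := by rw [← pow_succ]
    have h10 := key2 c (h1.trans (Nat.div_le_self _ _))
    have h11 : s * (8 * c + 14) ≤ n := by
      have h12 : (s : ℝ) * (8 * c + 14) ≤ n := by
        refine le_trans ?_ hn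
        have h13 : 8 * (c : ℝ) + 14 ≤ 8 * Real.log s := by linarith
        calc (s : ℝ) * (8 * c + 14) ≤ s * (8 * Real.log s) :=
              mul_le_mul_of_nonneg_left h13 hs0.le
          _ = 8 * s * Real.log s := by ring
      exact_mod_cast h12
    obtain ⟨H, e1, e2, N, G, e3, e4⟩ := exceeds h3 n h11
    refine ⟨H, e1, e2, N, G, e3, ?_⟩
    have h5 := key (c + 2) h4
    have h6 : (c : ℝ) * n < tw G := by exact_mod_cast e4
    have h7 : (1 : ℝ) ≤ c := by exact_mod_cast hc1
    have h8 : (0 : ℝ) ≤ n := Nat.cast_nonneg n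
    push_cast at h5
    have h9 : (n : ℝ) * Real.log s ≤ n * (120 * c) := by
      apply mul_le_mul_of_nonneg_left _ h8
      linarith
    have h14 : (0 : ℝ) ≤ n * c := by positivity
    nlinarith

theorem superlinear (d : ℝ) (hd : 0 < d) : ∀ᶠ n : ℕ in atTop,
    ∃ H : SimpleGraph (Fin n), Planar H ∧ (nu H : ℝ) ≤ d * n / Real.log n ∧
      ∃ (N : ℕ) (G : SimpleGraph (Fin N)), ¬ IsMinor H G ∧
        (1 / 2000) * (n : ℝ) * Real.log n < tw G := by
  obtain ⟨e, he⟩ : ∃ e : ℝ, e = min d (1 / 8) := ⟨_, rfl⟩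
  have he0 : 0 < e := by rw [he]; exact lt_min hd (by norm_num)
  have he1 : e ≤ d := by rw [he]; exact min_le_left _ _
  have he2 : e ≤ 1 / 8 := by rw [he]; exact min_le_right _ _
  have h1 : (fun x : ℝ => Real.log x) =o[atTop] (fun x : ℝ => x ^ (1 / 2 : ℝ)) :=
    isLittleO_log_rpow_atTop (by norm_num)
  have h2 := h1.bound (show (0 : ℝ) < e / 2 by positivity)
  have h3 := tendsto_natCast_atTop_atTop (R := ℝ) |>.eventually h2
  filter_upwards [h3, eventually_ge_atTop 16] with n hn hn16
  have hn16' : (16 : ℝ) ≤ n := by exact_mod_cast hn16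
  have hlog : 0 < Real.log n := Real.log_pos (by linarith)
  obtain ⟨r, hr⟩ : ∃ r : ℝ, r = Real.sqrt n := ⟨_, rfl⟩
  have hrr : r ^ 2 = n := by rw [hr]; exact Real.sq_sqrt (by linarith)
  have hr4 : 4 ≤ r := by
    rw [hr]
    apply Real.le_sqrt_of_sq_le
    linarith
  rw [Real.norm_of_nonneg hlog.le, Real.norm_of_nonneg (by positivity), ← Real.sqrt_eq_rpow,
    ← hr] at hn
  obtain ⟨s, hs⟩ : ∃ s : ℕ, s = ⌊e * n / Real.log n⌋₊ := ⟨_, rfl⟩
  have hs1 : (s : ℝ) ≤ e * n / Real.log n := by rw [hs]; exact Nat.floor_le (by positivity)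
  have hs2 : e * n / Real.log n < s + 1 := by rw [hs]; exact Nat.lt_floor_add_one _
  have hs3 : r ≤ s := by
    have h4 : r + 1 ≤ e * n / Real.log n := by
      rw [le_div_iff₀ hlog]
      calc (r + 1) * Real.log n ≤ (r + 1) * (e / 2 * r) :=
            mul_le_mul_of_nonneg_left hn (by linarith)
        _ ≤ (2 * r) * (e / 2 * r) := mul_le_mul_of_nonneg_right (by linarith) (by positivity)
        _ = e * n := by rw [← hrr]; ring
    linarith
  have hs4 : (2 : ℝ) ≤ s := by linarith
  have hs5 : 2 ≤ s := by exact_mod_cast hs4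
  have hsn : (s : ℝ) * Real.log n ≤ e * n := by
    rwa [le_div_iff₀ hlog] at hs1
  have hlogn1 : 1 ≤ Real.log n := by
    rw [Real.le_log_iff_exp_le (by linarith)]
    have := Real.exp_one_lt_d9
    linarith
  have hsle : (s : ℝ) ≤ n := by nlinarith
  have hlogsn : Real.log s ≤ Real.log n := Real.log_le_log (by linarith) hsle
  have hlogs0 : 0 ≤ Real.log s := Real.log_nonneg (by linarith)
  have hcond : 8 * (s : ℝ) * Real.log s ≤ n := by
    calc 8 * (s : ℝ) * Real.log s ≤ 8 * s * Real.log n :=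
          mul_le_mul_of_nonneg_left hlogsn (by positivity)
      _ ≤ 8 * (e * n) := by linarith
      _ ≤ n := by nlinarith
  obtain ⟨H, g1, g2, N, G, g3, g4⟩ := uniform s n hs5 hcond
  refine ⟨H, g1, ?_, N, G, g3, ?_⟩
  · have g5 : (nu H : ℝ) ≤ s := by exact_mod_cast g2
    refine g5.trans (hs1.trans ?_)
    gcongr
  · have g6 : Real.log n / 2 ≤ Real.log s := by
      have h5 : Real.log r = Real.log n / 2 := by
        rw [hr, Real.log_sqrt (by linarith)]
      rw [← h5]
      exact Real.log_le_log (by linarith) hs3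
    refine lt_of_le_of_lt ?_ g4
    have h6 : (0 : ℝ) ≤ n := by linarith
    nlinarith [mul_le_mul_of_nonneg_left g6 h6]

/-- **Q1 is false for every `d`, by a factor of order `log n`.** First, for all `s ≥ 2` and all
`n ≥ 8 s log s` some planar graph `H` on `n` vertices has at most `s` pairwise disjoint cycles,
although some graph without a minor `H` has treewidth larger than `n log s / 1000`. Secondly, for
every `d > 0` and all large `n` there is a planar graph `H` on `n` vertices with
`ν(H) ≤ d n / log n` and a graph without a minor `H` whose treewidth is larger than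
`n log n / 2000`. Thirdly, for no `d > 0` is there a constant `c` such that `f(H) ≤ c n` for all
planar graphs `H` on `n ≥ 2` vertices with `ν(H) ≤ d n / log n`. -/
theorem result :
    (∀ s n : ℕ, 2 ≤ s → 8 * (s : ℝ) * Real.log s ≤ n →
      ∃ H : SimpleGraph (Fin n), Planar H ∧ nu H ≤ s ∧
        ∃ (N : ℕ) (G : SimpleGraph (Fin N)), ¬ IsMinor H G ∧
          (1 / 1000) * (n : ℝ) * Real.log s < tw G) ∧
    (∀ d : ℝ, 0 < d → ∃ n₀ : ℕ, ∀ n : ℕ, n₀ ≤ n →
      ∃ H : SimpleGraph (Fin n), Planar H ∧ (nu H : ℝ) ≤ d * n / Real.log n ∧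
        ∃ (N : ℕ) (G : SimpleGraph (Fin N)), ¬ IsMinor H G ∧
          (1 / 2000) * (n : ℝ) * Real.log n < tw G) ∧
    ∀ d : ℝ, 0 < d → ¬ ∃ c : ℝ, 0 < c ∧ ∀ n : ℕ, 2 ≤ n → ∀ H : SimpleGraph (Fin n), Planar H →
      (nu H : ℝ) ≤ d * n / Real.log n →
        ∀ (N : ℕ) (G : SimpleGraph (Fin N)), ¬ IsMinor H G → (tw G : ℝ) ≤ c * n := by
  refine ⟨uniform, fun d hd => eventually_atTop.1 (superlinear d hd), ?_⟩
  rintro d hd ⟨c, hc, hcon⟩
  have h1 : ∀ᶠ n : ℕ in atTop, 2000 * c ≤ Real.log n :=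
    (Real.tendsto_log_atTop.comp tendsto_natCast_atTop_atTop).eventually_ge_atTop _
  obtain ⟨n, h2, h3, H, h4, h5, N, G, h6, h7⟩ :=
    (h1.and ((eventually_ge_atTop 2).and (superlinear d hd))).exists
  have h8 := hcon n h3 H h4 h5 N G h6
  have h9 : (0 : ℝ) ≤ n := Nat.cast_nonneg n
  nlinarith [mul_le_mul_of_nonneg_left h2 h9]

end Pool.Agent.Results.MP_711e27_co.FullLogLoss
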